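import Pool.Agent.H355.Units.Main

set_option autoImplicit false

/-!
# Torsion one-relator inverse monoids have finitely presented groups of units (Question Q2)

Words over `A ∪ A⁻¹` are elements of `FreeMonoid (A × Bool)`; `InvMon R` is the quotient of this
free monoid by the congruence generated by the Wagner pairs `u u⁻¹ u = u`,
`u u⁻¹ v v⁻¹ = v v⁻¹ u u⁻¹` (all words `u`, `v`), whose quotient is the free inverse monoid on `A`,
and by the pair `(R, 1)`; so `InvMon R = Inv⟨A ∣ R = 1⟩`.  `grp R` is the element of the free group
on `A` represented by `R`.  Finite presentability is Mathlib's `Group.IsFinitelyPresented`.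

The theorem: if `R` has the same free reduction as `r ^ k` for some word `r` and some `k > 1`
(for instance `R = r ^ k` itself), then the group of units of `Inv⟨A ∣ R = 1⟩` is finitely
presented.  No word is assumed to be reduced.

The proof: the group of units is `H / N` with `H` a subgroup of the free group and `N` generated
by conjugates of `w ^ n` where `w` is cyclically reduced and not a proper power, `n ≥ 2`.  A
stacking of `w` (which follows from the order theorem for one-relator groups in the library), a
counting inequality for immersed `w`-cycles and a dimension count over `ZMod p`, `p ∣ n`, bound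
the irreducible finite sets of relator loops relative to a finite graph carrying generators of
the units; all other relator loops are removed by collapses.
-/

namespace Pool.Agent.Results.MP_ad5e4d_al.TorsionUnitsFP

open Pool.Agent.H355.Units

theorem grp_pow {A : Type} (r : FreeMonoid (A × Bool)) (k : ℕ) : grp (r ^ k) = grp r ^ k := by
  induction k with
  | zero => rfl
  | succ k ih =>
    rw [pow_succ, pow_succ, ← ih]
    exact mk_append _ _

/-- For every word `r` over `A ∪ A⁻¹`, every `k > 1` and every word `R` which equals `r ^ k` in
the free group on `A` (in particular for `R = r ^ k`), the group of units of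
`Inv⟨A ∣ R = 1⟩` is finitely presented. -/
theorem result :
    ∀ (A : Type) (r R : FreeMonoid (A × Bool)) (k : ℕ), 1 < k → grp R = grp (r ^ k) →
      Group.IsFinitelyPresented (InvMon R)ˣ := by
  intro A r R k hk hR
  rw [grp_pow] at hR
  exact units_fp (R := R.toList) hk hR

end Pool.Agent.Results.MP_ad5e4d_al.TorsionUnitsFP
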